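import Mathlib
import Pool.Agent.H884R2.Zeta.Body

set_option autoImplicit false

namespace Pool.Agent.Results.MP_86df06_gt.BodiesNotConvex

open Pool.Agent.H884R2.Zeta

/-- For every `d ≥ 4` the set `ζ(𝒞_1^d)` of the `ζ`-vectors of the bodies of the class `𝒞_1^d`
is not convex. -/
theorem result : ∀ d : ℕ, 4 ≤ d → ¬ Convex ℝ (zetaBodies d) := by
  intro d hd
  obtain ⟨n, rfl⟩ := Nat.exists_eq_add_of_le' hd
  exact zetaBodies_not_convex n

end Pool.Agent.Results.MP_86df06_gt.BodiesNotConvex
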